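import Mathlib

/-!
# Integer valued metrics with a bounded metric-functional

For every infinite finitely generated group `G` with word metric `d_S` we compose `d_S` with a
subadditive staircase `rho : ℕ → ℕ`, `n ≤ rho n ≤ 2 n`, that is constant on windows of growing
length. The resulting metric has the zero function as a metric-functional.
-/

set_option autoImplicit false

namespace Pool.Agent.Results.MP_25f285_al.FlatWindows

open Filter Topology Set

universe u

/-! ## The statement -/

/-- The word metric `d_S`: the least length of a word in `S` representing `x⁻¹ * y`. -/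
noncomputable def wordDist {G : Type u} [Group G] (S : Set G) (x y : G) : ℕ :=
  sInf {n : ℕ | ∃ w : List G, (∀ s ∈ w, s ∈ S) ∧ w.prod = x⁻¹ * y ∧ w.length = n}

/-- `d` is a metric on the set `G`. -/
structure IsMetric {G : Type u} (d : G → G → ℝ) : Prop where
  eq_zero_iff : ∀ x y, d x y = 0 ↔ x = y
  symm : ∀ x y, d x y = d y x
  triangle : ∀ x y z, d x z ≤ d x y + d y z

/-- `d` is integer valued. -/
def IntegerValued {G : Type u} (d : G → G → ℝ) : Prop := ∀ x y, ∃ n : ℤ, d x y = n

/-- `d` is left-invariant. -/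
def LeftInvariant {G : Type u} [Group G] (d : G → G → ℝ) : Prop :=
  ∀ g x y, d (g * x) (g * y) = d x y

/-- `d` is proper: every ball is finite. -/
def IsProper {G : Type u} (d : G → G → ℝ) : Prop := ∀ (x : G) (r : ℝ), {y | d x y ≤ r}.Finite

/-- `d` is quasi-isometric to a Cayley metric (the identity map is a quasi-isometry). -/
def QIToCayley {G : Type u} [Group G] (d : G → G → ℝ) : Prop :=
  ∃ S : Set G, S.Finite ∧ (∀ s ∈ S, s⁻¹ ∈ S) ∧ Subgroup.closure S = ⊤ ∧
    ∃ C : ℝ, 1 ≤ C ∧ ∀ x y, C⁻¹ * (wordDist S x y : ℝ) - C ≤ d x y ∧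
      d x y ≤ C * (wordDist S x y : ℝ) + C

/-- The boundary `∂(G, d)`: all pointwise limits of `y ↦ d x_n y - d x_n 1` along sequences
`x_n` that eventually leave every finite subset of `G`. -/
def boundary {G : Type u} [Group G] (d : G → G → ℝ) : Set (G → ℝ) :=
  {f | ∃ x : ℕ → G, Tendsto x atTop cofinite ∧
    ∀ y, Tendsto (fun n => d (x n) y - d (x n) 1) atTop (𝓝 (f y))}

/-- `f` is unbounded: the supremum of `|f|` is infinite. -/
def IsUnbounded {G : Type u} (f : G → ℝ) : Prop := ∀ C : ℝ, ∃ y, C < |f y|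

/-! ## Word length -/

section Word

variable {G : Type u} [Group G] {S : Set G}

/-- Word length of `g`. -/
noncomputable def len (S : Set G) (g : G) : ℕ :=
  sInf {n : ℕ | ∃ w : List G, (∀ s ∈ w, s ∈ S) ∧ w.prod = g ∧ w.length = n}

theorem wordDist_eq (x y : G) : wordDist S x y = len S (x⁻¹ * y) := rfl

theorem len_le (w : List G) (hw : ∀ s ∈ w, s ∈ S) : len S w.prod ≤ w.length :=
  Nat.sInf_le ⟨w, hw, rfl, rfl⟩

theorem exists_word (hS : ∀ s ∈ S, s⁻¹ ∈ S) (hgen : Subgroup.closure S = ⊤) (g : G) :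
    ∃ w : List G, (∀ s ∈ w, s ∈ S) ∧ w.prod = g := by
  have hg : g ∈ (Subgroup.closure S).toSubmonoid := by rw [hgen]; trivial
  rw [Subgroup.closure_toSubmonoid] at hg
  obtain ⟨w, hw, rfl⟩ := Submonoid.exists_list_of_mem_closure hg
  refine ⟨w, fun s hs => ?_, rfl⟩
  rcases hw s hs with h | h
  · exact h
  · simpa using hS _ h

theorem exists_min_word (hS : ∀ s ∈ S, s⁻¹ ∈ S) (hgen : Subgroup.closure S = ⊤) (g : G) :
    ∃ w : List G, (∀ s ∈ w, s ∈ S) ∧ w.prod = g ∧ w.length = len S g := by
  have h : {n : ℕ | ∃ w : List G, (∀ s ∈ w, s ∈ S) ∧ w.prod = g ∧ w.length = n}.Nonempty := by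
    obtain ⟨w, hw, hg⟩ := exists_word hS hgen g
    exact ⟨w.length, w, hw, hg, rfl⟩
  exact Nat.sInf_mem h

theorem len_mul_le (hS : ∀ s ∈ S, s⁻¹ ∈ S) (hgen : Subgroup.closure S = ⊤) (g h : G) :
    len S (g * h) ≤ len S g + len S h := by
  obtain ⟨v, hv, hvg, hvl⟩ := exists_min_word hS hgen g
  obtain ⟨w, hw, hwg, hwl⟩ := exists_min_word hS hgen h
  have := len_le (S := S) (v ++ w) (by
    intro s hs
    rcases List.mem_append.1 hs with h | h
    · exact hv s h
    · exact hw s h)
  rw [List.prod_append, hvg, hwg, List.length_append, hvl, hwl] at this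
  exact this

theorem len_inv_le (hS : ∀ s ∈ S, s⁻¹ ∈ S) (hgen : Subgroup.closure S = ⊤) (g : G) :
    len S g⁻¹ ≤ len S g := by
  obtain ⟨v, hv, hvg, hvl⟩ := exists_min_word hS hgen g
  have := len_le (S := S) (v.map fun x => x⁻¹).reverse (by
    intro s hs
    rw [List.mem_reverse, List.mem_map] at hs
    obtain ⟨a, ha, rfl⟩ := hs
    exact hS _ (hv a ha))
  rw [← List.prod_inv_reverse, hvg, List.length_reverse, List.length_map, hvl] at this
  exact this

theorem len_inv (hS : ∀ s ∈ S, s⁻¹ ∈ S) (hgen : Subgroup.closure S = ⊤) (g : G) :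
    len S g⁻¹ = len S g := by
  refine le_antisymm (len_inv_le hS hgen g) ?_
  simpa using len_inv_le hS hgen g⁻¹

theorem len_one : len S (1 : G) = 0 := by
  have := len_le (S := S) ([] : List G) (by simp)
  simpa using this

theorem eq_one_of_len (hS : ∀ s ∈ S, s⁻¹ ∈ S) (hgen : Subgroup.closure S = ⊤) {g : G}
    (h : len S g = 0) : g = 1 := by
  obtain ⟨v, -, hvg, hvl⟩ := exists_min_word hS hgen g
  rw [h, List.length_eq_zero_iff] at hvl
  rw [← hvg, hvl, List.prod_nil]

theorem finite_ball (hfin : S.Finite) (hS : ∀ s ∈ S, s⁻¹ ∈ S) (hgen : Subgroup.closure S = ⊤)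
    (n : ℕ) : {g : G | len S g ≤ n}.Finite := by
  induction n with
  | zero =>
    refine (Set.finite_singleton (1 : G)).subset fun g hg => ?_
    exact eq_one_of_len hS hgen (Nat.le_zero.1 hg)
  | succ n ih =>
    refine ((ih.mul (hfin.insert 1))).subset fun g hg => ?_
    obtain ⟨v, hv, hvg, hvl⟩ := exists_min_word hS hgen g
    rcases List.eq_nil_or_concat v with rfl | ⟨w, s, rfl⟩
    · refine ⟨1, ?_, 1, by simp, ?_⟩
      · simp [len_one]
      · simpa using hvg
    · rw [List.concat_eq_append] at hv hvg hvl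
      refine ⟨w.prod, ?_, s, ?_, ?_⟩
      · have h1 := len_le (S := S) w fun a ha => hv a (by simp [ha])
        simp only [List.length_append, List.length_singleton] at hvl
        have h2 : len S g ≤ n + 1 := hg
        show len S w.prod ≤ n
        omega
      · exact Set.mem_insert_of_mem _ (hv s (by simp))
      · simpa using hvg

/-- An infinite group has elements of every word length. -/
theorem exists_len [Infinite G] (hfin : S.Finite) (hS : ∀ s ∈ S, s⁻¹ ∈ S)
    (hgen : Subgroup.closure S = ⊤) (n : ℕ) : ∃ g : G, len S g = n := by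
  obtain ⟨g, hg⟩ := (finite_ball hfin hS hgen n).exists_notMem
  obtain ⟨v, hv, hvg, hvl⟩ := exists_min_word hS hgen g
  have hn : n < len S g := by simpa using hg
  refine ⟨(v.take n).prod, ?_⟩
  have h1 := len_le (S := S) (v.take n) fun a ha => hv a (List.mem_of_mem_take ha)
  have h2 := len_le (S := S) (v.drop n) fun a ha => hv a (List.mem_of_mem_drop ha)
  have h3 := len_mul_le hS hgen (v.take n).prod (v.drop n).prod
  rw [← List.prod_append, List.take_append_drop, hvg] at h3
  rw [List.length_take] at h1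
  rw [List.length_drop] at h2
  omega

end Word

/-! ## The staircase -/

/-- The levels at which the staircase is constant for long. -/
def M (k : ℕ) : ℕ := (k + 2) ^ 2 * (k + 3) ^ 2

/-- `⌈(1 + 1 / (k + 1)) n⌉`, cut off at level `M k`. -/
def g (k n : ℕ) : ℕ := min (n + (n + k) / (k + 1)) (M k)

/-- The staircase. -/
noncomputable def rho (n : ℕ) : ℕ := ⨆ k, g k n

theorem ceil_le (k n : ℕ) : (n + k) / (k + 1) ≤ n := by
  rcases Nat.eq_zero_or_pos n with rfl | hn
  · simp
  · have : n + k ≤ n * (k + 1) := by nlinarith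
    calc (n + k) / (k + 1) ≤ n * (k + 1) / (k + 1) := Nat.div_le_div_right this
      _ = n := Nat.mul_div_cancel _ (Nat.succ_pos k)

theorem ceil_add (k m n : ℕ) : (m + n + k) / (k + 1) ≤ (m + k) / (k + 1) + (n + k) / (k + 1) := by
  have h1 : m ≤ (k + 1) * ((m + k) / (k + 1)) := by
    have h1 := Nat.div_add_mod (m + k) (k + 1)
    have h2 : (m + k) % (k + 1) < k + 1 := Nat.mod_lt (m + k) (Nat.succ_pos k)
    omega
  have h2 : n ≤ (k + 1) * ((n + k) / (k + 1)) := by
    have h1 := Nat.div_add_mod (n + k) (k + 1)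
    have h2 : (n + k) % (k + 1) < k + 1 := Nat.mod_lt (n + k) (Nat.succ_pos k)
    omega
  have h3 : m + n + k < (k + 1) * ((m + k) / (k + 1) + (n + k) / (k + 1) + 1) := by nlinarith
  have : (m + n + k) / (k + 1) < (m + k) / (k + 1) + (n + k) / (k + 1) + 1 :=
    (Nat.div_lt_iff_lt_mul (Nat.succ_pos k)).2 (by rw [mul_comm] at h3; exact h3)
  omega

theorem g_le (k n : ℕ) : g k n ≤ 2 * n := by
  have := ceil_le k n
  have : g k n ≤ n + (n + k) / (k + 1) := min_le_left _ _
  omega

theorem bdd (n : ℕ) : BddAbove (Set.range fun k => g k n) :=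
  ⟨2 * n, by rintro _ ⟨k, rfl⟩; exact g_le k n⟩

theorem g_le_rho (k n : ℕ) : g k n ≤ rho n := le_ciSup (bdd n) k

theorem rho_le (n : ℕ) : rho n ≤ 2 * n := ciSup_le fun k => g_le k n

theorem le_M (k : ℕ) : k ≤ M k := by
  unfold M
  nlinarith [Nat.zero_le k, Nat.zero_le (k ^ 2), Nat.zero_le (k ^ 3), Nat.zero_le (k ^ 4)]

theorem le_rho (n : ℕ) : n ≤ rho n :=
  le_trans (le_min (Nat.le_add_right _ _) (le_M n)) (g_le_rho n n)

theorem rho_mono : Monotone rho := by
  intro m n h
  refine ciSup_le fun k => le_trans ?_ (g_le_rho k n)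
  refine min_le_min ?_ le_rfl
  exact Nat.add_le_add h (Nat.div_le_div_right (Nat.add_le_add_right h k))

theorem rho_add (m n : ℕ) : rho (m + n) ≤ rho m + rho n := by
  refine ciSup_le fun k => le_trans ?_ (Nat.add_le_add (g_le_rho k m) (g_le_rho k n))
  have h := ceil_add k m n
  unfold g
  generalize (m + n + k) / (k + 1) = A at h ⊢
  generalize (m + k) / (k + 1) = B at h ⊢
  generalize (n + k) / (k + 1) = C at h ⊢
  omega

/-- The centre of the `k`-th window. -/
def N (k : ℕ) : ℕ := (k + 1) * (k + 2) * (k + 3) ^ 2 + (k + 1)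

theorem M_mono : Monotone M := by
  intro a b h
  unfold M
  gcongr

/-- The staircase is constant on the `k`-th window. -/
theorem rho_window (k n : ℕ) (h1 : N k ≤ n + k) (h2 : n ≤ N k + k) : rho n = M k := by
  apply le_antisymm
  · refine ciSup_le fun i => ?_
    rcases le_or_gt i k with hi | hi
    · exact (min_le_right _ _).trans (M_mono hi)
    · refine (min_le_left _ _).trans ?_
      -- here `n + ⌈n / (i + 1)⌉ ≤ n + ⌈n / (k + 2)⌉ ≤ M k`
      have hle : n ≤ (k + 2) ^ 3 * (k + 3) := by
        unfold N at h2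
        nlinarith
      have hq : (n + i) / (i + 1) ≤ (k + 2) ^ 2 * (k + 3) := by
        have : (n + i) < (i + 1) * ((k + 2) ^ 2 * (k + 3) + 1) := by
          have h3 : (k + 2) * ((k + 2) ^ 2 * (k + 3)) ≤ (i + 1) * ((k + 2) ^ 2 * (k + 3)) :=
            Nat.mul_le_mul_right _ (by omega)
          nlinarith
        have : (n + i) / (i + 1) < (k + 2) ^ 2 * (k + 3) + 1 :=
          (Nat.div_lt_iff_lt_mul (Nat.succ_pos i)).2 (by rw [mul_comm] at this; exact this)
        omega
      have : n + (n + i) / (i + 1) ≤ (k + 2) ^ 3 * (k + 3) + (k + 2) ^ 2 * (k + 3) :=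
        Nat.add_le_add hle hq
      refine this.trans (le_of_eq ?_)
      unfold M
      ring
  · refine le_trans (le_min ?_ le_rfl) (g_le_rho k n)
    have hge : (k + 1) * (k + 2) * (k + 3) ^ 2 ≤ n := by
      unfold N at h1
      omega
    have hq : (k + 2) * (k + 3) ^ 2 ≤ (n + k) / (k + 1) := by
      rw [Nat.le_div_iff_mul_le (Nat.succ_pos k)]
      nlinarith
    have : (k + 1) * (k + 2) * (k + 3) ^ 2 + (k + 2) * (k + 3) ^ 2 ≤ n + (n + k) / (k + 1) :=
      Nat.add_le_add hge hq
    refine le_trans (le_of_eq ?_) this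
    unfold M
    ring

/-! ## The metric -/

section Main

variable {G : Type u} [Group G] {S : Set G}

/-- The metric `rho ∘ d_S`. -/
noncomputable def dd (S : Set G) (x y : G) : ℝ := (rho (wordDist S x y) : ℝ)

theorem exists_metric [Infinite G] (hfin : S.Finite) (hS : ∀ s ∈ S, s⁻¹ ∈ S)
    (hgen : Subgroup.closure S = ⊤) :
    IsMetric (dd S) ∧ IntegerValued (dd S) ∧ LeftInvariant (dd S) ∧ IsProper (dd S) ∧
      (∀ x y, (wordDist S x y : ℝ) ≤ dd S x y ∧ dd S x y ≤ 2 * (wordDist S x y : ℝ)) ∧
      (fun _ => (0 : ℝ)) ∈ boundary (dd S) := by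
  have hbil : ∀ x y, (wordDist S x y : ℝ) ≤ dd S x y ∧ dd S x y ≤ 2 * (wordDist S x y : ℝ) := by
    intro x y
    exact ⟨by unfold dd; exact_mod_cast le_rho _, by unfold dd; exact_mod_cast rho_le _⟩
  refine ⟨⟨?_, ?_, ?_⟩, ?_, ?_, ?_, hbil, ?_⟩
  · intro x y
    constructor
    · intro h
      have h1 := (hbil x y).1
      rw [h] at h1
      have h2 : wordDist S x y = 0 := by
        have : (wordDist S x y : ℝ) = 0 := le_antisymm h1 (Nat.cast_nonneg _)
        exact_mod_cast this
      have h3 := eq_one_of_len hS hgen h2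
      exact (inv_mul_eq_one.1 h3)
    · rintro rfl
      have h1 := (hbil x x).2
      have h2 : wordDist S x x = 0 := by rw [wordDist_eq, inv_mul_cancel, len_one]
      rw [h2] at h1
      refine le_antisymm (by simpa using h1) (Nat.cast_nonneg _)
  · intro x y
    have : wordDist S x y = wordDist S y x := by
      rw [wordDist_eq, wordDist_eq, ← len_inv hS hgen]
      congr 1
      group
    unfold dd
    rw [this]
  · intro x y z
    have h : wordDist S x z ≤ wordDist S x y + wordDist S y z := by
      rw [wordDist_eq, wordDist_eq, wordDist_eq]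
      have := len_mul_le hS hgen (x⁻¹ * y) (y⁻¹ * z)
      rwa [show x⁻¹ * y * (y⁻¹ * z) = x⁻¹ * z by group] at this
    have := (rho_mono h).trans (rho_add _ _)
    unfold dd
    exact_mod_cast this
  · intro x y
    exact ⟨rho (wordDist S x y), by simp [dd]⟩
  · intro a x y
    unfold dd
    rw [wordDist_eq, wordDist_eq]
    congr 3
    group
  · intro x r
    have hf : ((fun a => x⁻¹ * a) ⁻¹' {a : G | len S a ≤ ⌊r⌋₊}).Finite :=
      (finite_ball hfin hS hgen ⌊r⌋₊).preimage (mul_right_injective x⁻¹).injOn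
    refine hf.subset fun y hy => ?_
    have h1 : (wordDist S x y : ℝ) ≤ r := (hbil x y).1.trans hy
    exact Nat.le_floor h1
  · choose x hx using fun k => exists_len (S := S) hfin hS hgen (N k)
    refine ⟨fun k => (x k), ?_, fun y => ?_⟩
    · have hk : ∀ k, k ≤ len S (x k) := by
        intro k
        rw [hx k]
        unfold N
        have := Nat.zero_le ((k + 1) * (k + 2) * (k + 3) ^ 2)
        omega
      intro s hs
      rw [mem_cofinite] at hs
      obtain ⟨B, hB⟩ := (hs.image (len S)).bddAbove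
      rw [Filter.mem_map]
      filter_upwards [eventually_gt_atTop B] with k hkB
      by_contra hc
      have : len S (x k) ≤ B := hB ⟨x k, hc, rfl⟩
      have := hk k
      omega
    · apply tendsto_const_nhds.congr'
      filter_upwards [eventually_ge_atTop (len S y)] with k hk
      have e1 : len S ((x k)⁻¹ * y) ≤ N k + k := by
        have := len_mul_le hS hgen (x k)⁻¹ y
        rw [len_inv hS hgen, hx k] at this
        omega
      have e2 : N k ≤ len S ((x k)⁻¹ * y) + k := by
        have := len_mul_le hS hgen ((x k)⁻¹ * y) y⁻¹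
        rw [mul_inv_cancel_right, len_inv hS hgen, len_inv hS hgen, hx k] at this
        omega
      have e3 : len S ((x k)⁻¹ * 1) = N k := by
        rw [mul_one, len_inv hS hgen, hx k]
      unfold dd
      rw [wordDist_eq, wordDist_eq, rho_window k _ e2 e1, e3,
        rho_window k (N k) (by omega) (by omega), sub_self]

end Main

/-- For every infinite finitely generated group `G` and every finite symmetric generating set `S`
there is an integer valued left-invariant proper metric `d` with `d_S ≤ d ≤ 2 d_S` that has the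
zero function among its metric-functionals; hence the answer to the question is negative. -/
theorem result :
    (∀ (G : Type u) [Group G] [Infinite G] (S : Set G), S.Finite → (∀ s ∈ S, s⁻¹ ∈ S) →
      Subgroup.closure S = ⊤ →
      ∃ d : G → G → ℝ, IsMetric d ∧ IntegerValued d ∧ LeftInvariant d ∧ IsProper d ∧
        (∀ x y, (wordDist S x y : ℝ) ≤ d x y ∧ d x y ≤ 2 * (wordDist S x y : ℝ)) ∧
        (fun _ => (0 : ℝ)) ∈ boundary d) ∧
    ¬ ∀ (G : Type u) [Group G], Group.FG G → ∀ d : G → G → ℝ, IsMetric d → IntegerValued d →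
      LeftInvariant d → IsProper d → QIToCayley d → ∀ f ∈ boundary d, IsUnbounded f := by
  refine ⟨fun G _ _ S hfin hS hgen => ⟨dd S, exists_metric hfin hS hgen⟩, fun h => ?_⟩
  let G := Multiplicative (ULift.{u} ℤ)
  let S : Set G := {Multiplicative.ofAdd ⟨1⟩, Multiplicative.ofAdd ⟨-1⟩}
  have hfin : S.Finite := by simp [S]
  have hS : ∀ s ∈ S, s⁻¹ ∈ S := by
    intro s hs
    rcases hs with rfl | hs
    · right
      rfl
    · left
      rw [Set.mem_singleton_iff] at hs
      rw [hs]
      rfl
  have hgen : Subgroup.closure S = ⊤ := by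
    rw [eq_top_iff]
    rintro z -
    have : z = (Multiplicative.ofAdd (⟨1⟩ : ULift.{u} ℤ)) ^ (Multiplicative.toAdd z).down := by
      apply Multiplicative.toAdd.injective
      rw [toAdd_zpow, toAdd_ofAdd]
      apply ULift.down_injective
      simp
    rw [this]
    have h1 : (Multiplicative.ofAdd (⟨1⟩ : ULift.{u} ℤ) : G) ∈ Subgroup.closure S :=
      Subgroup.subset_closure (Set.mem_insert _ _)
    exact Subgroup.zpow_mem _ h1 _
  have hinf : Infinite G := inferInstanceAs (Infinite (ULift.{u} ℤ))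
  obtain ⟨h1, h2, h3, h4, h5, h6⟩ := exists_metric hfin hS hgen
  have hFG : Group.FG G := by
    rw [Group.fg_iff]
    exact ⟨S, hgen, hfin⟩
  obtain ⟨y, hy⟩ := h G hFG (dd S) h1 h2 h3 h4
    ⟨S, hfin, hS, hgen, 2, by norm_num, fun x y => by
      have := h5 x y
      have h0 : (0 : ℝ) ≤ (wordDist S x y : ℝ) := Nat.cast_nonneg _
      constructor <;> linarith⟩ _ h6 0
  simp at hy

end Pool.Agent.Results.MP_25f285_al.FlatWindows
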